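import Pool.Agent.Work.MP_274aea_ag_D34.Ext

open MvPolynomial Pool.Agent.GM16 Pool.Agent.GM34

namespace Pool.Agent.Results.MP_274aea_ag.OcticDivisor

theorem result :
    ∃ (s : Par) (U : Set (Par → ℂ)), IsOpen U ∧ U.Nonempty ∧ ∀ y ∈ U,
      ∃ m t t', Anticanonical m ∧ ContainsOctic m t ∧ IsSmoothGM t ∧ Partner t t' ∧
        (∀ s', s' ≠ s → t' s' = y s') ∧ IsSmoothGM t' ∧ RationalChart t' :=
  main2

end Pool.Agent.Results.MP_274aea_ag.OcticDivisor
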