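import Pool.Agent.Work.MP_274aea_ag_Odd.Main

open MvPolynomial Pool.Agent.GM16

namespace Pool.Agent.Results.MP_274aea_ag.OddUnirational

theorem result (f : MvPolynomial Par ℂ) (hf : f ≠ 0) :
    ∃ t, eval t f ≠ 0 ∧ IsSmoothGM t ∧
      ∀ A : Matrix (Fin 2) (Fin 5) (MvPolynomial (Fin 6) ℂ),
        A = !![(1 : MvPolynomial (Fin 6) ℂ), 0, X 0, X 1, X 2; 0, 1, X 3, X 4, X 5] →
      ∀ J : Ideal (MvPolynomial (Fin 6) ℂ),
        J = Ideal.span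
          {∑ s : Idx, C (t (Sum.inl s)) * (A 0 s.1.1 * A 1 s.1.2 - A 0 s.1.2 * A 1 s.1.1),
           ∑ s : Idx, ∑ s' : Idx, C (t (Sum.inr (s, s'))) *
              (A 0 s.1.1 * A 1 s.1.2 - A 0 s.1.2 * A 1 s.1.1) *
              (A 0 s'.1.1 * A 1 s'.1.2 - A 0 s'.1.2 * A 1 s'.1.1)} →
        J.IsPrime ∧ ∃ ι : FractionRing (MvPolynomial (Fin 6) ℂ ⧸ J) →ₐ[ℂ]
            FractionRing (MvPolynomial (Fin 4) ℂ),
          Odd (Module.finrank ι.range (FractionRing (MvPolynomial (Fin 4) ℂ))) := by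
  obtain ⟨t, h1, h2, h3⟩ := Pool.Agent.GMO.main f hf
  refine ⟨t, h1, h2, ?_⟩
  rintro A rfl J rfl
  rw [Pool.Agent.GM34.bridge_H, Pool.Agent.GM34.bridge_Q, Pool.Agent.GM34.bridge_pl]
  exact h3

end Pool.Agent.Results.MP_274aea_ag.OddUnirational
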