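import Pool.Agent.Work.MP_274aea_ag.Reduce

open MvPolynomial Pool.Agent.GM16

namespace Pool.Agent.Results.MP_274aea_ag.ScrollDensity

theorem result (f : MvPolynomial Par ℂ) (hf : ∃ t, ContainsScroll t ∧ eval t f ≠ 0) :
    ∃ t, ContainsScroll t ∧ eval t f ≠ 0 ∧ IsSmoothGM t ∧
      ∀ A : Matrix (Fin 2) (Fin 5) (MvPolynomial (Fin 6) ℂ),
        A = !![(1 : MvPolynomial (Fin 6) ℂ), 0, X 0, X 1, X 2; 0, 1, X 3, X 4, X 5] →
      ∀ J : Ideal (MvPolynomial (Fin 6) ℂ),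
        J = Ideal.span
          {∑ s : Idx, C (t (Sum.inl s)) * (A 0 s.1.1 * A 1 s.1.2 - A 0 s.1.2 * A 1 s.1.1),
           ∑ s : Idx, ∑ s' : Idx, C (t (Sum.inr (s, s'))) *
              (A 0 s.1.1 * A 1 s.1.2 - A 0 s.1.2 * A 1 s.1.1) *
              (A 0 s'.1.1 * A 1 s'.1.2 - A 0 s'.1.2 * A 1 s'.1.1)} →
        J.IsPrime ∧ Nonempty (FractionRing (MvPolynomial (Fin 6) ℂ ⧸ J) ≃ₐ[ℂ]
          FractionRing (MvPolynomial (Fin 4) ℂ)) :=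
  main f hf

end Pool.Agent.Results.MP_274aea_ag.ScrollDensity
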